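import Pool.Agent.MP_3ee8cb_gt.DN.Defs
import Pool.Agent.MP_3ee8cb_gt.LV.Spec
import Pool.Agent.MP_3ee8cb_gt.TB.Defs

/-! Integration on the unit tangent bundle, the end of the proof and the statements. -/

namespace Pool.Agent.MP_3ee8cb_gt.DNIN

open DN (Dim dm)

variable [Dim]

open CR LV Set Filter MeasureTheory Topology
open scoped RealInnerProductSpace ContDiff

variable {n : ℕ}

/-- Invariance under the deck group. -/
def Inv (g : Met n) (Γ : Type) [Group Γ] [MulAction Γ (E n)] (u : UT g → ℝ) : Prop :=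
  ∀ (γ : Γ) (p q : UT g), q.1 = tm γ p.1 → u q = u p

/-- `σ` parametrises the fibre over `x` by directions, through an orthonormal frame `R`. -/
structure Par (g : Met n) (x : E n) (R : E n →L[ℝ] E n) (σ : E n → UT g) : Prop where
  on : ∀ a b, g x (R a) (R b) = ⟪a, b⟫
  val : ∀ v, v ≠ 0 → (σ v).1 = (x, R (‖v‖⁻¹ • v))

/-- The mean of `u` over every fibre is at most one. -/
def Fib (g : Met n) (u : UT g → ℝ) : Prop := ∀ x, ∃ R σ, Par g x R σ ∧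
  ∫ v in Metric.ball (0 : E n) 1, u (σ v) ≤ volume.real (Metric.ball (0 : E n) 1)

/-- `F` is locally the restriction of a map of class `C¹`. -/
def C1F {g h : Met n} (F : UT g → UT h) : Prop := ∀ p : UT g, ∃ φ : E n × E n → E n × E n,
  ContDiffAt ℝ 1 φ p.1 ∧ ∀ᶠ q in 𝓝 p, (F q).1 = φ q.1

/-- The extension of `F` that is constant along rays. -/
structure Ext0 {g h : Met n} (F : UT g → UT h) (φ : E n × E n → E n × E n) : Prop where
  smooth : ContDiffOn ℝ 1 φ {z | z.2 ≠ 0}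
  val : ∀ p, φ p.1 = (F p).1
  hom : ∀ x v (t : ℝ), 0 < t → v ≠ 0 → φ (x, t • v) = φ (x, v)

/-- The extension of `F` that keeps the length of vectors. -/
structure Ext1 {g h : Met n} (F : UT g → UT h) (φ : E n × E n → E n × E n) : Prop where
  smooth : ContDiffOn ℝ 1 φ {z | z.2 ≠ 0}
  val : ∀ p, φ p.1 = (F p).1
  hom : ∀ x v (t : ℝ), 0 < t → v ≠ 0 → φ (x, t • v) = ((φ (x, v)).1, t • (φ (x, v)).2)

/-- All sectional curvatures lie in `[-b ^ 2, -a ^ 2]`. -/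
def Pinch (h : Met n) (a b : ℝ) : Prop := ∃ C, TB.IsChr h C ∧ ∀ x u v,
  h x (TB.Rm C x u v v) u ≤ -a ^ 2 * (h x u u * h x v v - h x u v ^ 2) ∧
    -b ^ 2 * (h x u u * h x v v - h x u v ^ 2) ≤ h x (TB.Rm C x u v v) u

/-- An equivariant isometry. -/
def Iso (g h : Met n) {Γ Λ : Type} [Group Γ] [Group Λ] [MulAction Γ (E n)] [MulAction Λ (E n)]
    (ρ : Γ ≃* Λ) : Prop := ∃ F : E n → E n, Function.Bijective F ∧ ContDiff ℝ 1 F ∧
  (∀ x u v, h (F x) (fderiv ℝ F x u) (fderiv ℝ F x v) = g x u v) ∧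
    ∀ (γ : Γ) (x : E n), F (γ • x) = ρ γ • F x

/-- One smooth manifold with its geodesic flow. -/
structure SM (g : Met n) (Γ : Type) [Group Γ] [MulAction Γ (E n)] (Φ : ℝ → UT g → UT g) :
    Prop where
  qp : QP g Γ Φ
  sm : ContDiff ℝ ∞ g
  act : ∀ γ : Γ, ContDiff ℝ ∞ fun x : E n => γ • x

/-- A statement about a lifted conjugacy of smooth manifolds of dimension three. -/
def On3 (P : ∀ (g h : Met dm) (Γ Λ : Type) [Group Γ] [Group Λ] [MulAction Γ (E dm)]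
    [MulAction Λ (E dm)] (_ : Γ ≃* Λ) (_ : UT g ≃ₜ UT h), Prop) : Prop :=
  ∀ (g h : Met dm) (Γ Λ : Type) [Group Γ] [Group Λ] [MulAction Γ (E dm)] [MulAction Λ (E dm)]
    (Φ : ℝ → UT g → UT g) (Ψ : ℝ → UT h → UT h) (ρ : Γ ≃* Λ) (F : UT g ≃ₜ UT h),
    SM g Γ Φ → SM h Λ Ψ → CJ g h Φ Ψ ρ F → P g h Γ Λ ρ F

/-- Theorem A for upper curvature bound `-a ^ 2`. -/
def MainA (a : ℝ) : Prop := On3 fun g h _ _ _ _ _ _ ρ F => ∀ b : ℝ, b ^ 2 < 3 * a ^ 2 →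
  TB.CurvLe g 0 → Pinch h a b → C1F F → C1F F.symm → Iso g h ρ

/-- Part B for upper curvature bound `-a ^ 2` on the target. -/
def PartB (a : ℝ) : Prop := On3 fun g h _ _ _ _ _ _ _ F => ∀ b a' b' : ℝ, 0 < a' →
  b ^ 2 < 4 * a ^ 2 → b' ^ 2 < 4 * a' ^ 2 → Pinch g a' b' → Pinch h a b → C1F F

/-! rows -/

/-- A statement about a lifted conjugacy. -/
def OnC (P : ∀ (n : ℕ) (g h : Met n) (Γ Λ : Type) [Group Γ] [Group Λ] [MulAction Γ (E n)]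
    [MulAction Λ (E n)] (_ : ℝ → UT g → UT g) (_ : ℝ → UT h → UT h) (_ : Γ ≃* Λ)
    (_ : UT g ≃ₜ UT h), Prop) : Prop :=
  ∀ (n : ℕ) (g h : Met n) (Γ Λ : Type) [Group Γ] [Group Λ] [MulAction Γ (E n)]
    [MulAction Λ (E n)] (Φ : ℝ → UT g → UT g) (Ψ : ℝ → UT h → UT h) (ρ : Γ ≃* Λ)
    (F : UT g ≃ₜ UT h), 0 < n → QP g Γ Φ → QP h Λ Ψ → CJ g h Φ Ψ ρ F → P n g h Γ Λ Φ Ψ ρ F

/-- The averaging step. -/
def SAVG : Prop := OnC fun _ g h Γ _ _ _ _ _ Φ _ _ _ => ∀ a : ℝ, 0 < a → TB.CurvLe h a →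
  ∀ (u β f : UT g → ℝ) (c : ℝ), 0 < c → Continuous u → Continuous β → Continuous f →
    Inv g Γ u → Inv g Γ β → Inv g Γ f → (∀ p, 0 ≤ β p) →
    (∀ p, ∃ d, HasDerivAt (fun s => f (Φ s p)) d 0 ∧ 1 + c * β p + d / 2 ≤ u p) →
    Fib g u → ∀ p, β p = 0

/-- A fibre preserving conjugacy comes from an isometry. -/
def SEND : Prop := OnC fun _ g h _ _ _ _ _ _ _ Ψ ρ F => MinP h Ψ → C1F F →
  (∀ p q : UT g, p.1.1 = q.1.1 → (F p).1.1 = (F q).1.1) → Iso g h ρ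

def SEXT : Prop := ∀ (n : ℕ) (g h : Met n) (F : UT g → UT h), Riem g → C1F F →
  (∃ φ, Ext0 F φ) ∧ ∃ φ, Ext1 F φ

def SFOOT : Prop := ∀ (n : ℕ) (g : Met n) (y : E n × E n → E n), 2 ≤ n → Riem g →
  DifferentiableOn ℝ y {z | z.2 ≠ 0} →
  (∀ x v (t : ℝ), 0 < t → v ≠ 0 → y (x, t • v) = y (x, v)) →
  (∀ (p : UT g) (e : E n), g p.1.1 p.1.2 e = 0 → fderiv ℝ y p.1 (0, e) = 0) →
  ∀ p q : UT g, p.1.1 = q.1.1 → y p.1 = y q.1

def SSCA : Prop := MainA 1 → ∀ a : ℝ, 0 < a → MainA a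
def SSCB : Prop := PartB 1 → ∀ a : ℝ, 0 < a → PartB a

/-- Means over the ball and over the sphere. -/
def SSPH : Prop := ∀ (n : ℕ) (w : E n → ℝ), 0 < n → ContinuousOn w (Metric.sphere 0 1) →
  ∫ v in Metric.ball (0 : E n) 1, w (‖v‖⁻¹ • v) =
    (n : ℝ)⁻¹ * ∫ s : Metric.sphere (0 : E n) 1, w s ∂(volume : Measure (E n)).toSphere

end Pool.Agent.MP_3ee8cb_gt.DNIN
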